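import Pool.Agent.H78.DS.Final

/-!
For every `ℵ₀`-categorical theory `T` (so for every totally categorical one), in a language with
countably many symbols, whose countable model is interpretable in `(ℚ, <)` with parameters, the
degree spectrum of `T` is a cone of Turing degrees.
-/

set_option autoImplicit false

namespace Pool.Agent.Results.MP_927cf2_lc.RationalsCone

open FirstOrder FirstOrder.Language Pool.Agent.H78.DS

theorem result (L : FirstOrder.Language.{0, 0}) [Primcodable (Σ n, L.Functions n)]
    [Primcodable (Σ n, L.Relations n)] (T : L.Theory)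
    (hT : Cardinal.Categorical (Cardinal.aleph0 : Cardinal.{0}) T)
    (M : Type) [L.Structure M] [Infinite M] (hM : M ⊨ T) (hI : RatInterpretable L M) :
    ∃ a : ℕ → ℕ, ∀ g : ℕ → ℕ,
      (∃ A : L.Structure ℕ, @FirstOrder.Language.Theory.Model L ℕ A T ∧
        TuringReducible (PFun.lift (Set.indicator (diag L A) (fun _ => (1 : ℕ)))) (PFun.lift g))
      ↔ TuringReducible (PFun.lift a) (PFun.lift g) :=
  main T hT M hM hI

end Pool.Agent.Results.MP_927cf2_lc.RationalsCone
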